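import Pool.Agent.helper58.CRO.SpecB

/-!
# MP_5bf3c3_gt, row cro:BKD

Determinant of the block triangular map `(ξ, η) ↦ (ξ, (K (ξ, η)).1)`.
-/

noncomputable section

namespace Pool.Agent.CRO

theorem BKD : BKD_stmt := by
  classical
  intro n K
  let b : Module.Basis (Fin n) ℝ (En n) := (EuclideanSpace.basisFun (Fin n) ℝ).toBasis
  let A : En n →ₗ[ℝ] En n := ((ContinuousLinearMap.fst ℝ (En n) (En n)).comp
    (K.comp (ContinuousLinearMap.inl ℝ (En n) (En n))) : En n →L[ℝ] En n)
  let B : En n →ₗ[ℝ] En n := ((ContinuousLinearMap.fst ℝ (En n) (En n)).comp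
    (K.comp (ContinuousLinearMap.inr ℝ (En n) (En n))) : En n →L[ℝ] En n)
  let L : (En n × En n) →ₗ[ℝ] (En n × En n) :=
    (((ContinuousLinearMap.fst ℝ (En n) (En n)).prod
        ((ContinuousLinearMap.fst ℝ (En n) (En n)).comp K) : PS n →L[ℝ] PS n) :
      (En n × En n) →ₗ[ℝ] (En n × En n))
  have hL1 : ∀ x, (L x).1 = x.1 := fun x => rfl
  have hL2 : ∀ x, (L x).2 = (K x).1 := fun x => rfl
  have hA : ∀ x, A x = (K (x, 0)).1 := fun x => rfl
  have hB : ∀ x, B x = (K (0, x)).1 := fun x => rfl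
  have e1 : ∀ j, (b.prod b) (Sum.inl j) = (b j, 0) := fun j =>
    Prod.ext (Module.Basis.prod_apply_inl_fst b b j) (Module.Basis.prod_apply_inl_snd b b j)
  have e2 : ∀ j, (b.prod b) (Sum.inr j) = (0, b j) := fun j =>
    Prod.ext (Module.Basis.prod_apply_inr_fst b b j) (Module.Basis.prod_apply_inr_snd b b j)
  have h1 : LinearMap.toMatrix (b.prod b) (b.prod b) L =
      Matrix.fromBlocks 1 0 (LinearMap.toMatrix b b A) (LinearMap.toMatrix b b B) := by
    ext i j
    rcases i with i | i <;> rcases j with j | j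
    · rw [LinearMap.toMatrix_apply, Module.Basis.prod_repr_inl, hL1, e1]
      simp [Matrix.one_apply, Finsupp.single_apply, eq_comm]
    · rw [LinearMap.toMatrix_apply, Module.Basis.prod_repr_inl, hL1, e2]
      simp
    · rw [LinearMap.toMatrix_apply, Module.Basis.prod_repr_inr, hL2, e1]
      rw [Matrix.fromBlocks_apply₂₁, LinearMap.toMatrix_apply, hA]
    · rw [LinearMap.toMatrix_apply, Module.Basis.prod_repr_inr, hL2, e2]
      rw [Matrix.fromBlocks_apply₂₂, LinearMap.toMatrix_apply, hB]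
  have h2 : LinearMap.det L = LinearMap.det B := by
    rw [← LinearMap.det_toMatrix (b.prod b), h1, Matrix.det_fromBlocks_zero₁₂, Matrix.det_one,
      one_mul, LinearMap.det_toMatrix]
  exact h2

end Pool.Agent.CRO
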